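import Pool.Agent.Helper277.Solv

set_option autoImplicit false

namespace Pool.Agent.Results.MP_7217b8_al.SolubleCentral

universe u v

/-- `r` is a right order on `K` (strict total order, `f < g` implies `f h < g h`). -/
structure IsRightOrder {K : Type*} [Group K] (r : K → K → Prop) : Prop where
  irrefl : ∀ a, ¬ r a a
  trans : ∀ a b c, r a b → r b c → r a c
  total : ∀ a b, a ≠ b → r a b ∨ r b a
  mul_right : ∀ f g h, r f g → r (f * h) (g * h)

/-- `r` is a total order on `K` invariant under multiplication on both sides. -/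
structure IsBiOrder {K : Type*} [Group K] (r : K → K → Prop) : Prop extends IsRightOrder r where
  mul_left : ∀ f g h, r f g → r (h * f) (h * g)

/-- The Conrad condition: `1 < f < g` implies `f g ^ m f⁻¹ > g` for some positive integer `m`. -/
def IsConrad {K : Type*} [Group K] (r : K → K → Prop) : Prop :=
  ∀ f g : K, r 1 f → r f g → ∃ m : ℕ, 0 < m ∧ r g (f * g ^ m * f⁻¹)

/-- Every right order on `K` is a Conrad right order. -/
def EveryRightOrderConrad (K : Type*) [Group K] : Prop :=
  ∀ r : K → K → Prop, IsRightOrder r → IsConrad r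

open ConradSol

lemma rel_iff {K : Type*} [Group K] {r : K → K → Prop} (h : IsRightOrder r) (a b : K) :
    r a b ↔ r 1 (b * a⁻¹) := by
  constructor
  · intro h1
    have := h.mul_right _ _ a⁻¹ h1
    rwa [mul_inv_cancel] at this
  · intro h1
    have := h.mul_right _ _ a h1
    rwa [one_mul, inv_mul_cancel_right] at this

lemma cone_of_rightOrder {K : Type*} [Group K] {r : K → K → Prop} (h : IsRightOrder r) :
    Cone {x : K | r 1 x} := by
  refine ⟨?_, h.irrefl 1, ?_⟩
  · intro x hx y hy
    have := h.mul_right _ _ y hx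
    rw [one_mul] at this
    exact h.trans _ _ _ hy this
  · intro x hx
    rcases h.total 1 x (Ne.symm hx) with h1 | h1
    · exact Or.inl h1
    · right
      have := h.mul_right _ _ x⁻¹ h1
      rwa [mul_inv_cancel, one_mul] at this

lemma rightOrder_of_cone {K : Type*} [Group K] {P : Set K} (h : Cone P) :
    IsRightOrder (fun a b : K => b * a⁻¹ ∈ P) := by
  refine ⟨?_, ?_, ?_, ?_⟩
  · intro a ha
    rw [mul_inv_cancel] at ha
    exact h.one_not_mem ha
  · intro a b c h1 h2
    have := h.mul_mem _ h2 _ h1
    rwa [show c * b⁻¹ * (b * a⁻¹) = c * a⁻¹ by group] at this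
  · intro a b hab
    rcases h.total (b * a⁻¹) (fun h' => hab (mul_inv_eq_one.mp h').symm) with h1 | h1
    · exact Or.inl h1
    · right
      rwa [show a * b⁻¹ = (b * a⁻¹)⁻¹ by group]
  · intro f g k h1
    rwa [show g * k * (f * k)⁻¹ = g * f⁻¹ by group]

lemma conrad_iff {K : Type*} [Group K] : EveryRightOrderConrad K ↔ AllConrad K := by
  constructor
  · intro h P hP f g hf hg
    obtain ⟨m, hm, h1⟩ := h _ (rightOrder_of_cone hP) f g (by simpa using hf) hg
    exact ⟨m, hm, h1⟩
  · intro h r hr f g hf hg
    obtain ⟨m, hm, h1⟩ := h _ (cone_of_rightOrder hr) f g hf ((rel_iff hr f g).mp hg)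
    exact ⟨m, hm, (rel_iff hr _ _).mpr h1⟩

lemma orderable_of_biOrder {K : Type*} [Group K] (h : ∃ r : K → K → Prop, IsBiOrder r) :
    Orderable K := by
  obtain ⟨r, hr⟩ := h
  refine ⟨{x | r 1 x}, ⟨cone_of_rightOrder hr.toIsRightOrder, ?_⟩⟩
  intro g x hx
  have h1 := hr.mul_right _ _ g⁻¹ (hr.mul_left _ _ g hx)
  rwa [mul_one, mul_inv_cancel] at h1

/-- Let `G` be a soluble orderable group all of whose right orders are Conrad, and let `K` be a
central extension of `G`: `Z` is a subgroup of the centre of `K` and `K ⧸ Z` is isomorphic to `G`.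
Then every right order on `K` is a Conrad right order (and `K` is locally nilpotent). -/
theorem result (G : Type u) [Group G] [Group.IsSolvable G]
    (hG : ∃ r : G → G → Prop, IsBiOrder r) (hC : EveryRightOrderConrad G)
    (K : Type v) [Group K] (Z : Subgroup K) [Z.Normal] (hZ : Z ≤ Subgroup.center K)
    (e : K ⧸ Z ≃* G) :
    EveryRightOrderConrad K ∧ ∀ L : Subgroup K, L.FG → Group.IsNilpotent L := by
  have hOX : OX G := ⟨orderable_of_biOrder hG, conrad_iff.mp hC⟩
  have hker : ((e : K ⧸ Z →* G).comp (QuotientGroup.mk' Z)).ker ≤ Subgroup.center K := by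
    intro x hx
    apply hZ
    rw [← QuotientGroup.eq_one_iff]
    have h1 : e (x : K ⧸ Z) = 1 := hx
    rwa [map_eq_one_iff e e.injective] at h1
  exact ⟨conrad_iff.mpr (conrad_of_hom hOX _ hker),
    fun L hL => fg_nilpotent_of_hom hOX _ hker L hL⟩

/-- Sanity check: the hypotheses are satisfied by the infinite cyclic group. -/
theorem hypotheses_int : (∃ r : Multiplicative ℤ → Multiplicative ℤ → Prop, IsBiOrder r) ∧
    EveryRightOrderConrad (Multiplicative ℤ) := by
  constructor
  · refine ⟨(· < ·), ⟨⟨lt_irrefl, fun a b c => lt_trans, fun a b h => lt_or_gt_of_ne h, ?_⟩, ?_⟩⟩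
    · intro f g h hfg
      exact mul_lt_mul_left hfg h
    · intro f g h hfg
      exact mul_lt_mul_right hfg h
  · rw [conrad_iff]
    intro P hP
    exact conrad_of_nilpotent hP (fun f g => inferInstance)

end Pool.Agent.Results.MP_7217b8_al.SolubleCentral
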